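import Pool.Agent.H8.WP.Targets

/-!
# MP_64fb07_lc, board `wp8_modules`: module MW
-/

set_option autoImplicit false

namespace Pool.Agent.H63.WP

open Pool.Agent.H69.Sp Pool.Agent.H69.Mt Pool.Agent.H16.TO Pool.Agent.H8.PL Pool.Agent.H8.DI
open Pool.Agent.H8.WP

theorem pf_mw : W_MW := by
  intro n H hH
  refine ⟨?_, ?_, ?_⟩
  · rintro ⟨s, a⟩
    unfold ltM
    simp only
    rintro (⟨-, h⟩ | ⟨h1, h2, -⟩ | ⟨h1, h2, -⟩)
    · omega
    · rw [h1] at h2
      exact Bool.noConfusion h2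
    · rw [h1] at h2
      exact Bool.noConfusion h2
  · rintro ⟨s, a⟩ ⟨s', a'⟩ ⟨s'', a''⟩
    unfold ltM
    simp only
    cases s <;> cases s' <;> cases s'' <;> simp <;> omega
  · rintro ⟨s, a⟩ ⟨s', a'⟩ ⟨s'', a''⟩
    unfold ltM
    simp only [Prod.mk.injEq, Fin.ext_iff]
    cases s <;> cases s' <;> cases s'' <;> simp <;> omega

end Pool.Agent.H63.WP
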