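import Pool.Agent.H8.WP.Targets

/-!
# MP_64fb07_lc, board `wp8_modules`: module XS
-/

set_option autoImplicit false

namespace Pool.Agent.H63.WP

open Pool.Agent.H69.Sp Pool.Agent.H69.Mt Pool.Agent.H16.TO Pool.Agent.H8.PL Pool.Agent.H8.DI
open Pool.Agent.H8.WP

theorem pf_xs (hSQ : Z_SQ) (hXC : W_XC) : W_XS := by
  intro S hS
  obtain ⟨r, Q, U, Hh, Vv, hr, hQ, h1⟩ := hSQ S hS
  have hpos : ∀ m ∈ S, 0 < m := by
    intro m hm
    obtain ⟨L, _, _, φ, rfl⟩ := hS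
    exact hm.1
  obtain ⟨φ, hφ⟩ := hXC Q U Hh Vv
  refine ⟨φ, r, hr, fun C hC k => ?_⟩
  rw [hφ C hC k]
  constructor
  · rintro ⟨W, H, hW, hH, ht, rfl⟩
    obtain ⟨m, hm, rfl, rfl⟩ := (h1 W H hW hH).1 ht
    exact ⟨m, hm, by rw [two_mul r, pow_add]⟩
  · rintro ⟨m, hm, rfl⟩
    have hm0 := hpos m hm
    refine ⟨m ^ r, m ^ r, by positivity, by positivity, ?_, by rw [two_mul r, pow_add]⟩
    exact (h1 _ _ (by positivity) (by positivity)).2 ⟨m, hm, rfl, rfl⟩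

end Pool.Agent.H63.WP
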